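import Mathlib
import Pool.Agent.U282.PW.Cnt2

/-! Differences of the multiplicities of weights in tensor products of strings. -/

set_option autoImplicit false

namespace Pool.Agent.U282.RW

open Real Filter MeasureTheory Pool.Agent.U282.PW

/-- The number of tuples of weight `m`. -/
noncomputable def num {n : ℕ} (s : Fin n → ℕ) (m : ℤ) : ℕ :=
  Nat.card {a : ∀ i, Fin (s i) // hh s a = m}

theorem int_cos' (k : ℤ) :
    ∫ t in (-π)..π, Real.cos ((k : ℝ) * t) = if k = 0 then 2 * π else 0 := by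
  by_cases h0 : k = 0
  · subst h0
    rw [if_pos rfl]
    simp
    ring
  · rw [if_neg h0]
    have hk0 : (k : ℝ) ≠ 0 := by exact_mod_cast h0
    rw [intervalIntegral.integral_comp_mul_left (fun x => Real.cos x) hk0, integral_cos]
    rw [mul_neg, Real.sin_neg, Real.sin_int_mul_pi]
    simp

theorem num_integral {n : ℕ} (s : Fin n → ℕ) (hs : ∀ i, 0 < s i) (m : ℤ) :
    2 * π * (num s m : ℝ) =
      ∫ t in (-π)..π, Real.cos ((-(m : ℝ)) * t) * ∏ i, ((s i : ℝ) * phi (s i) t) := by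
  classical
  have h1 : ∀ t : ℝ, Real.cos ((-(m : ℝ)) * t) * ∏ i, ((s i : ℝ) * phi (s i) t) =
      ∑ a : ∀ i, Fin (s i), Real.cos (((hh s a - m : ℤ) : ℝ) * t) := by
    intro t
    rw [prod_phi s hs]
    apply Finset.sum_congr rfl
    intro a _
    push_cast
    rfl
  simp only [h1]
  rw [intervalIntegral.integral_finsetSum]
  · simp only [int_cos']
    rw [← Finset.sum_filter, Finset.sum_const, nsmul_eq_mul, num, Nat.card_eq_fintype_card,
      Fintype.card_subtype, mul_comm]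
    congr 3
    ext a
    simp only [Finset.mem_filter, Finset.mem_univ, true_and]
    omega
  · intro a _
    exact (Continuous.intervalIntegrable (by fun_prop) _ _)

theorem num_diff {n : ℕ} (s : Fin n → ℕ) (hs : ∀ i, 0 < s i) (m : ℤ) :
    (num s m : ℝ) - num s (m - 2) ≤
      (1 / π) * ∫ t in (-π)..π, |Real.sin t| * ∏ i, |(s i : ℝ) * phi (s i) t| := by
  have hpi := Real.pi_pos
  have hc : ∀ r : ℝ, Continuous fun t : ℝ =>
      Real.cos (r * t) * ∏ i, ((s i : ℝ) * phi (s i) t) := fun r =>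
    (by fun_prop : Continuous fun t : ℝ => Real.cos (r * t)).mul
      (continuous_finsetProd _ fun i _ => continuous_const.mul (phi_cont (s i)))
  have hc2 : Continuous fun t : ℝ => 2 * (|Real.sin t| * ∏ i, |(s i : ℝ) * phi (s i) t|) :=
    continuous_const.mul ((by fun_prop : Continuous fun t : ℝ => |Real.sin t|).mul
      (continuous_finsetProd _ fun i _ => (continuous_const.mul (phi_cont (s i))).abs))
  have h1 : 2 * π * ((num s m : ℝ) - num s (m - 2)) ≤
      ∫ t in (-π)..π, 2 * (|Real.sin t| * ∏ i, |(s i : ℝ) * phi (s i) t|) := by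
    rw [mul_sub, num_integral s hs, num_integral s hs, ← intervalIntegral.integral_sub
      ((hc _).intervalIntegrable _ _) ((hc _).intervalIntegrable _ _)]
    apply intervalIntegral.integral_mono_on (by linarith)
      (((hc _).sub (hc _)).intervalIntegrable _ _) (hc2.intervalIntegrable _ _)
    intro t _
    show Real.cos (-(m : ℝ) * t) * ∏ i, ((s i : ℝ) * phi (s i) t) -
      Real.cos (-((m - 2 : ℤ) : ℝ) * t) * ∏ i, ((s i : ℝ) * phi (s i) t) ≤ _
    rw [← sub_mul, ← mul_assoc, ← Finset.abs_prod]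
    refine (le_abs_self _).trans ?_
    rw [abs_mul]
    apply mul_le_mul_of_nonneg_right _ (abs_nonneg _)
    have e : Real.cos (-(m : ℝ) * t) - Real.cos (-((m - 2 : ℤ) : ℝ) * t) =
        -(2 * (Real.sin (-((m : ℝ) - 1) * t) * Real.sin (-t))) := by
      rw [Real.cos_sub_cos]
      push_cast
      rw [show (-(m : ℝ) * t + -((m : ℝ) - 2) * t) / 2 = -((m : ℝ) - 1) * t by ring,
        show (-(m : ℝ) * t - -((m : ℝ) - 2) * t) / 2 = -t by ring]
      ring
    rw [e, abs_neg, abs_mul, abs_mul, Real.sin_neg t, abs_neg, abs_two]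
    have h2 := Real.abs_sin_le_one (-((m : ℝ) - 1) * t)
    have h3 := abs_nonneg (Real.sin t)
    nlinarith
  rw [intervalIntegral.integral_const_mul] at h1
  set A := ∫ t in (-π)..π, |Real.sin t| * ∏ i, |(s i : ℝ) * phi (s i) t|
  rw [div_mul_eq_mul_div, one_mul, le_div_iff₀ hpi]
  linarith

theorem phi_le {s : ℕ} (hs : 2 ≤ s) (t : ℝ) :
    |(s : ℝ) * phi s t| ≤ (s : ℝ) - 2 + 2 * |Real.cos t| := by
  obtain ⟨r, rfl⟩ := Nat.exists_eq_add_of_le' hs
  have hs' : ((r + 2 : ℕ) : ℝ) ≠ 0 := by positivity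
  rw [phi, mul_div_cancel₀ _ hs', Fin.sum_univ_succ, Fin.sum_univ_succ, ← add_assoc]
  have h1 : |Real.cos ((((r + 2 : ℕ) : ℝ) - 1 - 2 * (((0 : Fin (r + 2)) : ℕ) : ℝ)) * t) +
      Real.cos ((((r + 2 : ℕ) : ℝ) - 1 - 2 * (((Fin.succ 0 : Fin (r + 2)) : ℕ) : ℝ)) * t)| ≤
      2 * |Real.cos t| := by
    rw [Real.cos_add_cos]
    have e : ((((r + 2 : ℕ) : ℝ) - 1 - 2 * (((0 : Fin (r + 2)) : ℕ) : ℝ)) * t -
      (((r + 2 : ℕ) : ℝ) - 1 - 2 * (((Fin.succ 0 : Fin (r + 2)) : ℕ) : ℝ)) * t) / 2 = t := by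
      simp
      ring
    rw [e, abs_mul, abs_mul, abs_two]
    have h2 := Real.abs_cos_le_one (((((r + 2 : ℕ) : ℝ) - 1 - 2 * (((0 : Fin (r + 2)) : ℕ) : ℝ)) * t
      + (((r + 2 : ℕ) : ℝ) - 1 - 2 * (((Fin.succ 0 : Fin (r + 2)) : ℕ) : ℝ)) * t) / 2)
    have h3 := abs_nonneg (Real.cos t)
    nlinarith
  have h2 : |∑ i : Fin r, Real.cos ((((r + 2 : ℕ) : ℝ) - 1 -
      2 * ((i.succ.succ : Fin (r + 2)) : ℕ)) * t)| ≤ r := by
    refine (Finset.abs_sum_le_sum_abs _ _).trans ?_
    calc ∑ i : Fin r, |Real.cos ((((r + 2 : ℕ) : ℝ) - 1 -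
          2 * ((i.succ.succ : Fin (r + 2)) : ℕ)) * t)| ≤ ∑ _i : Fin r, (1 : ℝ) :=
          Finset.sum_le_sum fun i _ => Real.abs_cos_le_one _
      _ = r := by simp
  refine (abs_add_le _ _).trans ?_
  have h3 : ((r + 2 : ℕ) : ℝ) - 2 = r := by push_cast; ring
  rw [h3]
  linarith

theorem phi_le' {s : ℕ} (hs : 0 < s) (t : ℝ) : |(s : ℝ) * phi s t| ≤ s := by
  rw [abs_mul, abs_of_nonneg (Nat.cast_nonneg s)]
  have := phi_abs hs t
  have h0 : (0 : ℝ) ≤ s := Nat.cast_nonneg s
  nlinarith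

theorem int_bound (β : ℝ) (hβ : 0 ≤ β) (n : ℕ) :
    ∫ t in (-π)..π, |Real.sin t| * (β + 2 * |Real.cos t|) ^ n ≤
      2 * (β + 2) ^ (n + 1) / (n + 1) := by
  have hpi := Real.pi_pos
  set g : ℝ → ℝ := fun t => |Real.sin t| * (β + 2 * |Real.cos t|) ^ n with hg
  have hgc : Continuous g := by rw [hg]; fun_prop
  have hi : ∀ a b, IntervalIntegrable g volume a b := fun a b => hgc.intervalIntegrable a b
  have hneg : ∀ t, g (-t) = g t := fun t => by simp [hg]
  have hpis : ∀ t, g (π - t) = g t := fun t => by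
    simp [hg, Real.sin_pi_sub, Real.cos_pi_sub]
  have h1 : ∫ t in (-π)..0, g t = ∫ t in (0 : ℝ)..π, g t := by
    have := intervalIntegral.integral_comp_neg (a := 0) (b := π) g
    simp only [hneg, neg_zero] at this
    exact this.symm
  have h2 : ∫ t in (π / 2)..π, g t = ∫ t in (0 : ℝ)..(π / 2), g t := by
    have := intervalIntegral.integral_comp_sub_left (a := π / 2) (b := π) g π
    simp only [hpis, sub_self] at this
    rw [this]
    congr 1
    ring
  have h3 : ∫ t in (0 : ℝ)..(π / 2), g t =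
      ∫ t in (0 : ℝ)..(π / 2), Real.sin t * (β + 2 * Real.cos t) ^ n := by
    apply intervalIntegral.integral_congr
    intro t ht
    rw [Set.uIcc_of_le (by linarith)] at ht
    show |Real.sin t| * (β + 2 * |Real.cos t|) ^ n = _
    rw [abs_of_nonneg (Real.sin_nonneg_of_nonneg_of_le_pi ht.1 (by linarith [ht.2])),
      abs_of_nonneg (Real.cos_nonneg_of_neg_pi_div_two_le_of_le (by linarith [ht.1]) ht.2)]
  have h4 : ∫ t in (0 : ℝ)..(π / 2), Real.sin t * (β + 2 * Real.cos t) ^ n =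
      -((β + 2 * Real.cos (π / 2)) ^ (n + 1) / (2 * (n + 1))) -
        -((β + 2 * Real.cos 0) ^ (n + 1) / (2 * (n + 1))) := by
    apply intervalIntegral.integral_eq_sub_of_hasDerivAt
      (f := fun t => -((β + 2 * Real.cos t) ^ (n + 1) / (2 * (n + 1))))
    · intro t _
      have h5 : HasDerivAt (fun t => β + 2 * Real.cos t) (2 * -Real.sin t) t :=
        ((Real.hasDerivAt_cos t).const_mul 2).const_add β
      have h6 := ((h5.pow (n + 1)).div_const (2 * ((n : ℝ) + 1))).neg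
      have hn : (n : ℝ) + 1 ≠ 0 := by positivity
      have e : -(((n + 1 : ℕ) : ℝ) * (β + 2 * Real.cos t) ^ (n + 1 - 1) * (2 * -Real.sin t) /
          (2 * ((n : ℝ) + 1))) = Real.sin t * (β + 2 * Real.cos t) ^ n := by
        rw [Nat.add_sub_cancel]
        push_cast
        field_simp
      rw [← e]
      exact h6
    · exact Continuous.intervalIntegrable (by fun_prop) _ _
  have h7 : ∫ t in (-π)..π, g t = 4 * ∫ t in (0 : ℝ)..(π / 2), g t := by
    rw [← intervalIntegral.integral_add_adjacent_intervals (hi (-π) 0) (hi 0 π), h1,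
      ← intervalIntegral.integral_add_adjacent_intervals (hi 0 (π / 2)) (hi (π / 2) π), h2]
    ring
  rw [h7, h3, h4, Real.cos_pi_div_two, Real.cos_zero, mul_zero, add_zero, mul_one]
  have hn : (0 : ℝ) < (n : ℝ) + 1 := by positivity
  have h8 : 0 ≤ β ^ (n + 1) / (2 * ((n : ℝ) + 1)) := by positivity
  have h9 : (β + 2) ^ (n + 1) / (2 * ((n : ℝ) + 1)) * 4 = 2 * (β + 2) ^ (n + 1) / (n + 1) := by
    field_simp
    ring
  linarith

variable {J : Type*} [Fintype J] {s : J → ℕ}

theorem sum_abs_le (hs : ∀ j, 0 < s j) {j₀ : J} (h2 : 2 ≤ s j₀) (t : ℝ) :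
    ∑ j, |(s j : ℝ) * phi (s j) t| ≤ ((∑ j, s j : ℕ) : ℝ) - 2 + 2 * |Real.cos t| := by
  classical
  rw [← Finset.add_sum_erase _ _ (Finset.mem_univ j₀), ← Finset.add_sum_erase _ s
    (Finset.mem_univ j₀)]
  have h1 := phi_le h2 t
  have h3 : ∑ j ∈ Finset.univ.erase j₀, |(s j : ℝ) * phi (s j) t| ≤
      ∑ j ∈ Finset.univ.erase j₀, (s j : ℝ) := Finset.sum_le_sum fun j _ => phi_le' (hs j) t
  push_cast
  linarith

theorem total_bound (hs : ∀ j, 0 < s j) {j₀ : J} (h2 : 2 ≤ s j₀) (n : ℕ)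
    (Q : (Fin n → J) → Prop) [DecidablePred Q] (m : (Fin n → J) → ℤ) :
    ∑ j : Fin n → J, (if Q j then (num (fun i => s (j i)) (m j) : ℝ) else 0) ≤
      ∑ j : Fin n → J, (if Q j then (num (fun i => s (j i)) (m j - 2) : ℝ) else 0) +
        (1 / π) * (2 * ((∑ j, s j : ℕ) : ℝ) ^ (n + 1) / (n + 1)) := by
  have hpi := Real.pi_pos
  have hb : (2 : ℝ) ≤ ((∑ j, s j : ℕ) : ℝ) := by
    have : s j₀ ≤ ∑ j, s j := Finset.single_le_sum (fun _ _ => Nat.zero_le _) (Finset.mem_univ j₀)
    exact_mod_cast h2.trans this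
  set b : ℝ := ((∑ j, s j : ℕ) : ℝ) with hbdef
  have hcont : ∀ j : Fin n → J, Continuous fun t : ℝ =>
      |Real.sin t| * ∏ i, |(s (j i) : ℝ) * phi (s (j i)) t| := fun j =>
    (by fun_prop : Continuous fun t : ℝ => |Real.sin t|).mul
      (continuous_finsetProd _ fun i _ => (continuous_const.mul (phi_cont (s (j i)))).abs)
  have h1 : ∀ j : Fin n → J, (if Q j then (num (fun i => s (j i)) (m j) : ℝ) else 0) ≤
      (if Q j then (num (fun i => s (j i)) (m j - 2) : ℝ) else 0) +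
      (1 / π) * ∫ t in (-π)..π, |Real.sin t| * ∏ i, |(s (j i) : ℝ) * phi (s (j i)) t| := by
    intro j
    split_ifs
    · have := num_diff (fun i => s (j i)) (fun i => hs _) (m j)
      linarith
    · rw [zero_add]
      apply mul_nonneg (by positivity)
      apply intervalIntegral.integral_nonneg (by linarith)
      intro t _
      exact mul_nonneg (abs_nonneg _) (Finset.prod_nonneg fun i _ => abs_nonneg _)
  have h3 := Finset.sum_le_sum fun j (_ : j ∈ (Finset.univ : Finset (Fin n → J))) => h1 j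
  rw [Finset.sum_add_distrib, ← Finset.mul_sum] at h3
  refine h3.trans ?_
  apply add_le_add_right
  apply mul_le_mul_of_nonneg_left _ (by positivity)
  rw [← intervalIntegral.integral_finsetSum (fun j _ => (hcont j).intervalIntegrable _ _)]
  have h4 := int_bound (b - 2) (by linarith) n
  rw [sub_add_cancel] at h4
  refine le_trans ?_ h4
  apply intervalIntegral.integral_mono_on (by linarith)
    ((continuous_finsetSum _ fun j _ => hcont j).intervalIntegrable _ _)
    (Continuous.intervalIntegrable (by fun_prop) _ _)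
  intro t _
  rw [← Finset.mul_sum, ← Fintype.sum_pow (fun j => |(s j : ℝ) * phi (s j) t|) n]
  apply mul_le_mul_of_nonneg_left _ (abs_nonneg _)
  exact pow_le_pow_left₀ (Finset.sum_nonneg fun j _ => abs_nonneg _) (sum_abs_le hs h2 t) n

end Pool.Agent.U282.RW
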