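import Pool.Agent.U282.RW.Lim
import Pool.Agent.U644.KL.Main

/-! The invariant cycles: the image of the cohomology of the special fibre. -/

set_option autoImplicit false

open Module Filter Topology

namespace Pool.Agent.U282.RW

universe u v w

open Pool.Agent.Y143 Pool.Agent.Y163.MW Pool.Agent.U644.LT Pool.Agent.U644.RA Pool.Agent.U644.KL

variable {Ω : Type w} [Field Ω] {R C : Coh.{v, w} Ω} {q : ℕ} {sp : C.V →ₗ[Ω] R.V}

/-- The span of the images of the parts of degree `m` of `C`. -/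
def cycSpace (C R : Coh.{v, w} Ω) (sp : C.V →ₗ[Ω] R.V) : Submodule Ω R.V :=
  ⨆ m : ℕ, (C.gr m).map sp

variable [CharZero Ω]

lemma F_sub_mem (hR : IsPre R q) {m : ℕ} {α : Ω} {x : R.V} (hx : x ∈ R.gr m) (hN : R.N x = 0) :
    R.F x - α • x ∈ R.gr m ∧ R.N (R.F x - α • x) = 0 := by
  refine ⟨Submodule.sub_mem _ (hR.F_gr m x hx) (Submodule.smul_mem _ _ hx), ?_⟩
  have := hR.N_F x
  rw [map_sub, map_smul, this, hN, map_zero, smul_zero, smul_zero, sub_zero]

lemma pc_sub (hq : 1 < q) (hR : IsPre R q)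
    (hs : IsSpecialization q C.gr C.F R.gr R.F R.N sp) {m : ℕ} {α : Ω} {x : R.V}
    (hx : x ∈ R.pc (m, α)) (hN : R.N x = 0) {c : ℤ} (hc : c ≤ 0)
    (hw : IsWeilNumber q ((m : ℤ) + c) α) : x ∈ (C.gr m).map sp := by
  classical
  by_contra hcon
  obtain ⟨h1, h2⟩ := Submodule.mem_inf.1 hx
  obtain ⟨k, hk⟩ := (Module.End.mem_maxGenEigenspace _ _ _).1 h2
  set T : Module.End Ω R.V := R.F - α • 1 with hT
  have hmem : ∀ j : ℕ, (T ^ j) x ∈ R.gr m ∧ R.N ((T ^ j) x) = 0 := by
    intro j
    induction j with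
    | zero => exact ⟨by simpa using h1, by simpa using hN⟩
    | succ j ih =>
      rw [pow_succ', Module.End.mul_apply]
      have h3 := F_sub_mem (α := α) hR ih.1 ih.2
      exact h3
  have hex : ∃ j : ℕ, (T ^ j) x ∈ (C.gr m).map sp := ⟨k, by rw [hk]; exact Submodule.zero_mem _⟩
  have h0 : Nat.find hex ≠ 0 := by
    intro h0
    have h3 := Nat.find_spec hex
    rw [h0] at h3
    exact hcon (by simpa using h3)
  obtain ⟨j, hj⟩ := Nat.exists_eq_succ_of_ne_zero h0
  have h4 : (T ^ j) x ∉ (C.gr m).map sp := Nat.find_min hex (by omega)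
  have h5 : (T ^ (j + 1)) x ∈ (C.gr m).map sp := by
    have h6 := Nat.find_spec hex
    rw [hj] at h6
    exact h6
  rw [pow_succ', Module.End.mul_apply] at h5
  obtain ⟨w, hw1, hw2⟩ := hs.coker m α ((T ^ j) x) ⟨(hmem j).1, (hmem j).2, h4, h5⟩
  have h7 := weil_unique hq hw2 hw
  omega

lemma ker_le_sup [IsAlgClosed Ω] (hq : 1 < q) (hR : IsPre R q)
    (hs : IsSpecialization q C.gr C.F R.gr R.F R.N sp) :
    LinearMap.ker R.N ≤ cycSpace C R sp ⊔
      (LinearMap.ker R.N ⊓ ⨆ (c : ℤ) (_ : 0 < c), R.tot q c) := by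
  classical
  intro x hx
  rw [LinearMap.mem_ker] at hx
  have htop : x ∈ ⨆ p : ℕ × ℤ, R.exc q p.1 p.2 := by
    have h1 : (⊤ : Submodule Ω R.V) ≤ ⨆ p : ℕ × ℤ, R.exc q p.1 p.2 := by
      rw [← hR.isInternal.submodule_iSup_eq_top]
      refine iSup_le fun m => ?_
      rw [← iSup_exc hR m]
      exact iSup_le fun c => le_iSup (fun p : ℕ × ℤ => R.exc q p.1 p.2) (m, c)
    exact h1 Submodule.mem_top
  obtain ⟨f, hf, hfw⟩ := (Submodule.mem_iSup_iff_exists_finsupp _ _).1 htop
  have hfw' : ∑ p ∈ f.support, f p = x := hfw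
  have hind : iSupIndep (fun p : ℕ × ℤ => R.exc q p.1 (p.2 - 2)) :=
    (indep_exc hq hR).comp (f := fun p : ℕ × ℤ => (p.1, p.2 - 2)) (fun p p' h => by
      have h1 := (Prod.mk.inj h).1
      have h2 := (Prod.mk.inj h).2
      exact Prod.ext h1 (by linarith))
  rw [iSupIndep_iff_finsetSum_eq_zero_imp_eq_zero] at hind
  have h1 := hind f.support (fun p => R.N (f p)) (fun p _ => N_exc hq hR p.1 p.2 _ (hf p))
    (by rw [← map_sum, hfw', hx])
  rw [← hfw']
  refine Submodule.sum_mem _ fun p hp => ?_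
  rcases le_or_gt p.2 0 with h2 | h2
  · refine Submodule.mem_sup_left ?_
    refine ker_le hq hR (fun α hα y hy hNy => ?_) _ (hf p) (h1 p hp)
    exact Submodule.mem_iSup_of_mem p.1 (pc_sub hq hR hs hy hNy h2 hα)
  · refine Submodule.mem_sup_right (Submodule.mem_inf.2 ⟨LinearMap.mem_ker.2 (h1 p hp), ?_⟩)
    exact Submodule.mem_iSup_of_mem p.2 (Submodule.mem_iSup_of_mem h2 (exc_le_tot p.1 p.2 (hf p)))

lemma cyc_le_ker (hs : IsSpecialization q C.gr C.F R.gr R.F R.N sp) :
    cycSpace C R sp ≤ LinearMap.ker R.N := by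
  refine iSup_le fun m => ?_
  rintro _ ⟨s, -, rfl⟩
  exact LinearMap.mem_ker.2 (hs.killed s)

lemma cyc_le_light [IsAlgClosed Ω] (hs : IsSpecialization q C.gr C.F R.gr R.F R.N sp) :
    cycSpace C R sp ≤ ⨆ c ∈ {c : ℤ | c ≤ 0}, R.tot q c := by
  have := hs.finite
  refine iSup_le fun m => ?_
  rintro _ ⟨s, hsm, rfl⟩
  let φ : Module.End Ω (C.gr m) := C.F.restrict (hs.respects m)
  have key : ∀ t : C.gr m, sp t ∈ ⨆ c ∈ {c : ℤ | c ≤ 0}, R.tot q c := by
    intro t
    have ht : t ∈ ⨆ μ : Ω, φ.maxGenEigenspace μ := by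
      rw [Module.End.iSup_maxGenEigenspace_eq_top]
      exact Submodule.mem_top
    refine Submodule.iSup_induction (fun μ : Ω => φ.maxGenEigenspace μ)
      (motive := fun t => sp t ∈ ⨆ c ∈ {c : ℤ | c ≤ 0}, R.tot q c) ht ?_ ?_ ?_
    · intro μ t ht
      by_cases h0 : t = 0
      · subst h0
        simp
      obtain ⟨k, hk⟩ := (Module.End.mem_maxGenEigenspace _ _ _).1 ht
      -- the eigenvalue `μ`
      have hμ : ∃ y : C.gr m, y ≠ 0 ∧ φ y = μ • y := by
        classical
        have hex : ∃ k : ℕ, ((φ - μ • 1) ^ k) t = 0 := ⟨k, hk⟩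
        have h1 : Nat.find hex ≠ 0 := by
          intro h1
          have h2 := Nat.find_spec hex
          rw [h1] at h2
          exact h0 (by simpa using h2)
        obtain ⟨j, hj⟩ := Nat.exists_eq_succ_of_ne_zero h1
        refine ⟨((φ - μ • 1) ^ j) t, Nat.find_min hex (by omega), ?_⟩
        have h3 := Nat.find_spec hex
        rw [hj, Nat.succ_eq_add_one, pow_succ', Module.End.mul_apply, LinearMap.sub_apply,
          sub_eq_zero] at h3
        exact h3
      obtain ⟨y, hy0, hy⟩ := hμ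
      obtain ⟨w, hw, hwμ⟩ := hs.weights m μ y y.2 (fun h => hy0 (Subtype.ext h))
        (congrArg Subtype.val hy)
      have h2 : sp t ∈ R.exc q m (w - m) := by
        refine pc_le_exc (α := μ) ?_ ?_
        · rwa [show (m : ℤ) + (w - m) = w by ring]
        · refine Submodule.mem_inf.2 ⟨hs.degree m t t.2, ?_⟩
          refine (Module.End.mem_maxGenEigenspace _ _ _).2 ⟨k, ?_⟩
          have h3 : ∀ (j : ℕ) (z : C.gr m), ((R.F - μ • 1) ^ j) (sp z) =
              sp (((φ - μ • 1) ^ j) z : C.gr m) := by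
            intro j
            induction j with
            | zero => intro z; simp
            | succ j ih =>
              intro z
              rw [pow_succ, Module.End.mul_apply, pow_succ, Module.End.mul_apply, ← ih]
              congr 1
              rw [LinearMap.sub_apply, LinearMap.sub_apply, Submodule.coe_sub, map_sub]
              congr 1
              · exact (hs.frob z).symm
              · show μ • sp (z : C.V) = sp (μ • (z : C.V))
                rw [map_smul]
          rw [h3, hk]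
          simp
      refine Submodule.mem_iSup_of_mem (w - m) (Submodule.mem_iSup_of_mem ?_
        (exc_le_tot m _ h2))
      show w - m ≤ 0
      omega
    · simp
    · intro x y hx hy
      rw [Submodule.coe_add, map_add]
      exact Submodule.add_mem _ hx hy
  exact key ⟨s, hsm⟩

/-- **The number of the invariant cycles.** -/
theorem cyc_add_heavy [IsAlgClosed Ω] (hq : 1 < q) (hR : IsPre R q)
    (hs : IsSpecialization q C.gr C.F R.gr R.F R.N sp) :
    finrank Ω (cycSpace C R sp) + heavy R q = R.inv := by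
  have := hR.finite
  obtain ⟨S⟩ := exists_strings hq hR
  have hind := indep_tot hq hR
  set K : Submodule Ω R.V := LinearMap.ker R.N ⊓ ⨆ (c : ℤ) (_ : 0 < c), R.tot q c with hK
  have h1 : cycSpace C R sp ⊔ K = LinearMap.ker R.N :=
    le_antisymm (sup_le (cyc_le_ker hs) inf_le_left) (ker_le_sup hq hR hs)
  have h2 : cycSpace C R sp ⊓ K = ⊥ := by
    rw [eq_bot_iff]
    have h3 : cycSpace C R sp ⊓ K ≤ (⨆ c ∈ {c : ℤ | c ≤ 0}, R.tot q c) ⊓
        (⨆ c ∈ {c : ℤ | 0 < c}, R.tot q c) :=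
      inf_le_inf (cyc_le_light hs) inf_le_right
    refine h3.trans ?_
    rw [iSup_eq hind S, iSup_eq hind S, span_image_inf]
    have h4 : {p | S.wt p ∈ {c : ℤ | c ≤ 0}} ∩ {p | S.wt p ∈ {c : ℤ | 0 < c}} = ∅ := by
      ext p
      simp only [Set.mem_inter_iff, Set.mem_setOf_eq, Set.mem_empty_iff_false, iff_false]
      omega
    rw [h4, Set.image_empty, Submodule.span_empty]
  have h5 := Submodule.finrank_sup_add_finrank_inf_eq (cycSpace C R sp) K
  rw [h1, h2, finrank_bot, add_zero] at h5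
  exact h5.symm

end Pool.Agent.U282.RW
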