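import Pool.Agent.U282.RW.Cyc

/-! Log schemes: Kato's conjecture and the local invariant cycles of the powers. -/

set_option autoImplicit false

open Module Filter Topology

namespace Pool.Agent.U282.RW

universe u v w

open Pool.Agent.Y143 Pool.Agent.Y163.MW Pool.Agent.U644.LT Pool.Agent.U644.RA Pool.Agent.U644.KL

variable {Ω : Type w} [Field Ω] [CharZero Ω]

/-- The known facts on the log étale cohomology of the projective SNCL schemes over a log point over
a finite field with `q` elements. -/
structure LogFacts (T : LogSchemes.{u, v, w} Ω) (q : ℕ) : Prop where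
  one_lt : 1 < q
  pre : ∀ X, IsPre (T.H X) q
  duality : ∀ X, ∃ B, IsPoincare q (T.dim X) (T.H X).gr (T.H X).F B ∧ Skew B (T.H X).N
  kunneth : ∀ X Y, T.Kunneth X Y
  specialization : ∀ X, T.Specialization q X

/-- The invariant cycles of `Y`: the span of the images of the `H^m` of the underlying scheme. -/
def cycles (T : LogSchemes.{u, v, w} Ω) (Y : T.Obj) : Submodule Ω (T.H Y).V :=
  ⨆ m : ℕ, ((T.C Y).gr m).map (T.sp Y)

/-- The same data without the special fibres. -/
def forget (T : LogSchemes.{u, v, w} Ω) : RigidTheory.{u, v, w} Ω where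
  Obj := T.Obj
  prod := T.prod
  dim := T.dim
  H := T.H

lemma forget_times (T : LogSchemes.{u, v, w} Ω) (X Z : T.Obj) (n : ℕ) :
    (forget T).times X Z n = T.times X Z n := by
  induction n with
  | zero => rfl
  | succ n ih =>
    show T.prod ((forget T).times X Z n) Z = T.prod (T.times X Z n) Z
    rw [ih]

variable {T : LogSchemes.{u, v, w} Ω} {q : ℕ}

lemma LogFacts.forget (h : LogFacts T q) : Facts (forget T) q where
  one_lt := h.one_lt
  pre := h.pre
  duality := h.duality
  kunneth := h.kunneth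

lemma kato_iff_wm [IsAlgClosed Ω] (h : LogFacts T q) (X : T.Obj) :
    T.Kato q X ↔ (forget T).WeightMonodromy q X :=
  forall_congr' fun m => (mwPure_iff h.one_lt (h.pre X) m).symm

lemma cycles_iff_bounded [IsAlgClosed Ω] (h : LogFacts T q) (Y : T.Obj) :
    T.InvariantCycles Y ↔ T.Bounded q Y :=
  ⟨bounded_of_cycles (h.specialization Y),
    cycles_of_bounded h.one_lt (h.pre Y) (h.specialization Y)⟩

/-- The criterion on `X × X`. -/
theorem kato_square [IsAlgClosed Ω] (h : LogFacts T q) (X : T.Obj) :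
    T.Kato q X ↔ T.InvariantCycles (T.prod X X) := by
  rw [kato_iff_wm h, cycles_iff_bounded h, square h.forget X]
  exact Iff.rfl

lemma cycles_add [IsAlgClosed Ω] (h : LogFacts T q) (Y : T.Obj) :
    finrank Ω (cycles T Y) + heavy (T.H Y) q = (T.H Y).inv :=
  cyc_add_heavy h.one_lt (h.pre Y) (h.specialization Y)

lemma cycles_of_heavy [IsAlgClosed Ω] (h : LogFacts T q) (Y : T.Obj)
    (h0 : heavy (T.H Y) q = 0) : T.InvariantCycles Y := by
  have hfin := (h.pre Y).finite
  refine (cycles_iff_bounded h Y).2 ((bounded_iff h.one_lt (h.pre Y)).2 ?_)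
  intro c hc x hx hN
  rw [zero_add, pow_one] at hN
  have h1 : (LinearMap.ker (T.H Y).N ⊓ ⨆ (c : ℤ) (_ : 0 < c), (T.H Y).tot q c :
      Submodule Ω (T.H Y).V) = ⊥ := Submodule.finrank_eq_zero.1 h0
  have h2 : x ∈ (LinearMap.ker (T.H Y).N ⊓ ⨆ (c : ℤ) (_ : 0 < c), (T.H Y).tot q c :
      Submodule Ω (T.H Y).V) := by
    refine Submodule.mem_inf.2 ⟨LinearMap.mem_ker.2 hN, ?_⟩
    exact Submodule.mem_iSup_of_mem c (Submodule.mem_iSup_of_mem (by simpa using hc) hx)
  rw [h1] at h2
  exact (Submodule.mem_bot Ω).1 h2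

/-- Kato's conjecture for `X` implies the local invariant cycle theorem for the powers. -/
theorem cycles_times [IsAlgClosed Ω] (h : LogFacts T q) (X : T.Obj) (hX : T.Kato q X) (n : ℕ) :
    T.InvariantCycles (T.times X X n) := by
  apply cycles_of_heavy h
  have h1 := none_heavy h.forget X ((kato_iff_wm h X).1 hX) n
  rw [forget_times] at h1
  exact h1

/-- The share of the invariant cycles. -/
theorem cycles_law [IsAlgClosed Ω] (h : LogFacts T q) (X : T.Obj) (hX : ¬ T.Kato q X) :
    0 ≤ (T.H X).totRankMoment ∧ (T.H X).totRankMoment < (T.H X).totWeightMoment q ∧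
    Tendsto (fun n : ℕ => (finrank Ω (cycles T (T.times X X n)) : ℝ) / (T.H (T.times X X n)).inv)
      atTop (𝓝 ((1 + √(((T.H X).totRankMoment : ℝ) / ((T.H X).totWeightMoment q : ℝ))) / 2)) := by
  obtain ⟨h1, h2, h3⟩ := law h.forget X (fun h0 => hX ((kato_iff_wm h X).2 h0))
  have h1' : 0 ≤ (T.H X).totRankMoment := h1
  have h2' : (T.H X).totRankMoment < (T.H X).totWeightMoment q := h2
  refine ⟨h1', h2', ?_⟩
  have h4 : Tendsto (fun n : ℕ => (heavy (T.H (T.times X X n)) q : ℝ) /
      (T.H (T.times X X n)).inv) atTop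
      (𝓝 ((1 - √(((T.H X).totRankMoment : ℝ) / ((T.H X).totWeightMoment q : ℝ))) / 2)) := by
    refine h3.congr fun n => ?_
    rw [forget_times]
    rfl
  have hlt : (1 - √(((T.H X).totRankMoment : ℝ) / ((T.H X).totWeightMoment q : ℝ))) / 2 > 0 := by
    have hw0 : (0 : ℝ) < (T.H X).totWeightMoment q := by
      exact_mod_cast lt_of_le_of_lt h1' h2'
    have h5 : √(((T.H X).totRankMoment : ℝ) / ((T.H X).totWeightMoment q : ℝ)) < 1 := by
      rw [Real.sqrt_lt' one_pos, one_pow, div_lt_one hw0]
      exact_mod_cast h2'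
    linarith
  have h5 := h4.const_sub 1
  have e : 1 - (1 - √(((T.H X).totRankMoment : ℝ) / ((T.H X).totWeightMoment q : ℝ))) / 2 =
      (1 + √(((T.H X).totRankMoment : ℝ) / ((T.H X).totWeightMoment q : ℝ))) / 2 := by ring
  rw [e] at h5
  refine h5.congr' ?_
  filter_upwards [h4.eventually_const_lt hlt] with n hn
  have h6 : ((T.H (T.times X X n)).inv : ℝ) ≠ 0 := by
    intro h0
    rw [h0, div_zero] at hn
    exact lt_irrefl _ hn
  have h7 : (finrank Ω (cycles T (T.times X X n)) : ℝ) + heavy (T.H (T.times X X n)) q =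
      (T.H (T.times X X n)).inv := by
    exact_mod_cast cycles_add h (T.times X X n)
  field_simp
  linarith

end Pool.Agent.U282.RW
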