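import Pool.Agent.U282.RW.Main

/-! The share of the heavy eigenvalues. -/

set_option autoImplicit false

open Module TensorProduct Filter Topology

namespace Pool.Agent.U282.RW

universe u v w

open Pool.Agent.Y143 Pool.Agent.Y136.UB Pool.Agent.Y163.MW Pool.Agent.U644.LT Pool.Agent.U644.RA
open Pool.Agent.Y163.MW.Coh (adp_strings exists_len kunneth_tot)
open Pool.Agent.U644.MW (P InvariantsBounded)

variable {Ω : Type w} [Field Ω] [CharZero Ω] {T : RigidTheory.{u, v, w} Ω} {q : ℕ}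

/-- The numbers in the identity for the powers. -/
theorem id_pow [IsAlgClosed Ω] (hF : Facts T q) (X : T.Obj) (n : ℕ) :
    2 * heavy (T.H (T.times X X n)) q + (T.H (T.times X X n)).pred q =
      (T.H (T.times X X n)).inv + finrank Ω (LinearMap.ker (T.H (T.times X X n)).N ⊓
        (T.H (T.times X X n)).tot q 1 : Submodule Ω (T.H (T.times X X n)).V) := by
  obtain ⟨B, hB, hs⟩ := hF.duality (T.times X X n)
  exact identity_coh hF.one_lt (hF.pre _) hB hs

theorem aux_lim (b : ℝ) : Tendsto (fun n : ℕ => √((n + 1 : ℕ) : ℝ) *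
    ((1 / Real.pi) * (2 * b ^ (n + 1 + 1) / (((n + 1 : ℕ) : ℝ) + 1)) / b ^ (n + 1))) atTop
    (𝓝 0) := by
  have h1 : Tendsto (fun n : ℕ => (1 / √((n + 1 : ℕ) : ℝ))) atTop (𝓝 0) := by
    have h2 : Tendsto (fun n : ℕ => √((n + 1 : ℕ) : ℝ)) atTop atTop :=
      Real.tendsto_sqrt_atTop.comp (tendsto_natCast_atTop_atTop.comp (tendsto_add_atTop_nat 1))
    refine h2.inv_tendsto_atTop.congr fun n => ?_
    rw [Pi.inv_apply, one_div]
  have h3 := h1.const_mul (2 * |b| / Real.pi)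
  rw [mul_zero] at h3
  rw [tendsto_zero_iff_abs_tendsto_zero]
  refine squeeze_zero (fun _ => abs_nonneg _) (fun n => ?_) h3
  have hn : (0 : ℝ) < ((n + 1 : ℕ) : ℝ) := by positivity
  have hs : 0 < √((n + 1 : ℕ) : ℝ) := Real.sqrt_pos.2 hn
  have hpi := Real.pi_pos
  rcases eq_or_ne b 0 with hb | hb
  · subst hb
    simp
  have e : √((n + 1 : ℕ) : ℝ) *
    ((1 / Real.pi) * (2 * b ^ (n + 1 + 1) / (((n + 1 : ℕ) : ℝ) + 1)) / b ^ (n + 1)) =
      2 * b / Real.pi * (√((n + 1 : ℕ) : ℝ) / (((n + 1 : ℕ) : ℝ) + 1)) := by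
    have hb' : b ^ (n + 1) ≠ 0 := pow_ne_zero _ hb
    rw [pow_succ b (n + 1)]
    field_simp
  show |√((n + 1 : ℕ) : ℝ) *
    ((1 / Real.pi) * (2 * b ^ (n + 1 + 1) / (((n + 1 : ℕ) : ℝ) + 1)) / b ^ (n + 1))| ≤ _
  rw [e, abs_mul, abs_div, abs_mul, abs_two, abs_of_pos hpi]
  apply mul_le_mul_of_nonneg_left _ (by positivity)
  rw [abs_of_nonneg (by positivity), div_le_div_iff₀ (by positivity) hs,
    Real.mul_self_sqrt hn.le, one_mul]
  linarith

theorem sym_ct {K : Type w} [Field K] {V : Type v} [AddCommGroup V] [Module K V]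
    {gr : ℤ → Submodule K V} {N : Module.End K V} (S : Strings gr N) (r : ℤ) :
    Nat.card {p // S.ct p = r} = Nat.card {p // S.ct p = -r} := by
  let E : S.P ≃ S.P := Equiv.sigmaCongrRight fun s => Fin.revPerm
  refine Nat.card_congr (E.subtypeEquiv ?_)
  rintro ⟨s, i⟩
  have hE : S.ct (E ⟨s, i⟩) = -S.ct ⟨s, i⟩ := by
    show (S.len s : ℤ) - 2 * ((Fin.rev i : Fin (S.len s + 1)) : ℕ) =
      -((S.len s : ℤ) - 2 * (i : ℕ))
    rw [Fin.val_rev]
    have := i.2
    omega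
  rw [hE]
  omega

theorem limit_pos [IsAlgClosed Ω] (hF : Facts T q) (X : T.Obj)
    (S : Strings ((T.H X).tot q) (T.H X).N) {s₀ : S.ι} (hs₀ : 1 ≤ S.len s₀) :
    Tendsto (fun n : ℕ => (heavy (T.H (T.times X X n)) q : ℝ) / (T.H (T.times X X n)).inv) atTop
      (𝓝 ((1 - √((∑ p, S.ct p ^ 2 : ℤ) / (∑ p, S.wt p ^ 2 : ℤ))) / 2)) := by
  have hq := hF.one_lt
  have hB1 : StB1.{w, v} := Pool.Agent.Y954.MW.stB1 Pool.Agent.Y141.MW.stL
  have H := adp_strings S
  have ha2 : ∃ p p', S.ct p = S.ct p' + 2 := by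
    refine ⟨⟨s₀, ⟨0, by omega⟩⟩, ⟨s₀, ⟨1, by omega⟩⟩, ?_⟩
    unfold Strings.ct
    simp
  have hc2 : ∃ p p', S.wt p = S.wt p' + 2 := by
    refine ⟨⟨s₀, ⟨0, by omega⟩⟩, ⟨s₀, ⟨1, by omega⟩⟩, ?_⟩
    unfold Strings.wt
    simp
  have hc : ∀ r : ℤ, Nat.card {p // S.wt p = r} = Nat.card {p // S.wt p = -r} := by
    intro r
    obtain ⟨B, hB, -⟩ := hF.duality X
    rw [← adp_finrank_tot hq (hF.pre X) H, ← adp_finrank_tot hq (hF.pre X) H]
    exact finrank_tot_neg hq (hF.pre X) ⟨_, B, hB⟩ r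
  have hinv : ∀ n, ((T.H (T.times X X n)).inv : ℝ) =
      Nat.card {g : Fin (n + 1) → S.P // ∑ k, S.ct (g k) = 0 ∨ ∑ k, S.ct (g k) = 1} := by
    intro n
    rw [(adp_times hF X H n).inv_eq hB1]
  have hpred : ∀ n, ((T.H (T.times X X n)).pred q : ℝ) =
      Nat.card {g : Fin (n + 1) → S.P // ∑ k, S.wt (g k) = 0 ∨ ∑ k, S.wt (g k) = 1} := by
    intro n
    rw [adp_pred_eq hq (hF.pre _) (adp_times hF X H n)]
  -- the ratio `pred / inv`
  have h1 := lim_ratio S.wt S.ct hc (sym_ct S) hc2 ha2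
  -- the asymptotics of `inv`
  have h2 := (tendsto_add_atTop_iff_nat 1).2 (lim_count S.ct (sym_ct S) ha2)
  have hI : (0 : ℝ) < Fintype.card S.P := by
    obtain ⟨p, _⟩ := ha2
    exact_mod_cast Fintype.card_pos_iff.2 ⟨p⟩
  have hpos : (0 : ℝ) < ∑ p, (S.ct p : ℝ) ^ 2 := by
    have h3 : (0 : ℝ) < (S.ct ⟨s₀, ⟨0, by omega⟩⟩ : ℝ) ^ 2 := by
      have : S.ct ⟨s₀, ⟨0, by omega⟩⟩ = S.len s₀ := by
        unfold Strings.ct
        simp
      rw [this]
      have h4 : (0 : ℝ) < ((S.len s₀ : ℤ) : ℝ) := by exact_mod_cast hs₀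
      positivity
    exact lt_of_lt_of_le h3 (Finset.single_le_sum (f := fun p => (S.ct p : ℝ) ^ 2)
      (fun p _ => sq_nonneg _) (Finset.mem_univ _))
  have hL : √(2 * (Fintype.card S.P : ℝ) / (Real.pi * ∑ i, (S.ct i : ℝ) ^ 2)) ≠ 0 :=
    (Real.sqrt_pos.2 (div_pos (by positivity) (mul_pos Real.pi_pos hpos))).ne'
  -- the kernel in excess one
  have hk : ∀ n, (finrank Ω (LinearMap.ker (T.H (T.times X X n)).N ⊓
        (T.H (T.times X X n)).tot q 1 : Submodule Ω (T.H (T.times X X n)).V) : ℝ) ≤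
      (1 / Real.pi) * (2 * (Fintype.card S.P : ℝ) ^ (n + 1 + 1) / (((n + 1 : ℕ) : ℝ) + 1)) := by
    intro n
    obtain ⟨b, e, h, hs, hb⟩ := adp_times hF X H n
    have h3 := ker_bound (indep_tot hq (hF.pre _)) (N_tot hq (hF.pre _)) hb hs 1
    have h4 := kappa_le S (n + 1) hs₀
    have h5 : ((finrank Ω (LinearMap.ker (T.H (T.times X X n)).N ⊓
        (T.H (T.times X X n)).tot q 1 : Submodule Ω (T.H (T.times X X n)).V) +
      Nat.card {i : Fin (n + 1) → S.P // ∑ k, S.wt (i k) = 1 - 2 ∧ ∑ k, S.ct (i k) ≤ -2} : ℕ) : ℝ)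
        ≤ (Nat.card {i : Fin (n + 1) → S.P // ∑ k, S.wt (i k) = 1 ∧ ∑ k, S.ct (i k) ≤ 0} : ℕ) := by
      exact_mod_cast h3
    rw [Nat.cast_add] at h5
    have h12 := h5.trans h4
    rw [add_comm] at h12
    exact le_of_add_le_add_left h12
  have h6 : Tendsto (fun n : ℕ => (finrank Ω (LinearMap.ker (T.H (T.times X X n)).N ⊓
        (T.H (T.times X X n)).tot q 1 : Submodule Ω (T.H (T.times X X n)).V) : ℝ) /
        (T.H (T.times X X n)).inv) atTop (𝓝 0) := by
    have h7 : Tendsto (fun n : ℕ => √((n + 1 : ℕ) : ℝ) *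
        ((finrank Ω (LinearMap.ker (T.H (T.times X X n)).N ⊓
        (T.H (T.times X X n)).tot q 1 : Submodule Ω (T.H (T.times X X n)).V) : ℝ) /
          (Fintype.card S.P : ℝ) ^ (n + 1))) atTop (𝓝 0) := by
      refine squeeze_zero (fun n => by positivity) (fun n => ?_) (aux_lim (Fintype.card S.P))
      apply mul_le_mul_of_nonneg_left _ (Real.sqrt_nonneg _)
      exact div_le_div_of_nonneg_right (hk n) (by positivity)
    have h8 := h7.div h2 hL
    rw [zero_div] at h8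
    refine h8.congr fun n => ?_
    have hn : √((n + 1 : ℕ) : ℝ) ≠ 0 := (Real.sqrt_pos.2 (by positivity)).ne'
    have hb : (Fintype.card S.P : ℝ) ^ (n + 1) ≠ 0 := by positivity
    simp only [Pi.div_apply]
    rw [hinv, mul_div_mul_left _ _ hn, div_div_div_cancel_right₀ hb]
  have h9 := ((h1.const_sub 1).add h6).div_const 2
  rw [add_zero] at h9
  have hne : ∀ᶠ n : ℕ in atTop, ((T.H (T.times X X n)).inv : ℝ) ≠ 0 := by
    filter_upwards [h2.eventually_ne hL] with n hn h0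
    apply hn
    rw [← hinv, h0]
    simp
  refine h9.congr' ?_
  filter_upwards [hne] with n hn
  have h10 := id_pow hF X n
  have h11 : 2 * (heavy (T.H (T.times X X n)) q : ℝ) + (T.H (T.times X X n)).pred q =
      (T.H (T.times X X n)).inv + finrank Ω (LinearMap.ker (T.H (T.times X X n)).N ⊓
        (T.H (T.times X X n)).tot q 1 : Submodule Ω (T.H (T.times X X n)).V) := by
    exact_mod_cast h10
  rw [← hinv, ← hpred]
  field_simp
  linarith

theorem limit_zero [IsAlgClosed Ω] (hF : Facts T q) (X : T.Obj)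
    (S : Strings ((T.H X).tot q) (T.H X).N) (h0 : ∀ s, S.len s = 0) {p₀ : S.P}
    (hp₀ : S.wt p₀ ≠ 0) :
    Tendsto (fun n : ℕ => (heavy (T.H (T.times X X n)) q : ℝ) / (T.H (T.times X X n)).inv) atTop
      (𝓝 (1 / 2)) := by
  have hq := hF.one_lt
  have hB1 : StB1.{w, v} := Pool.Agent.Y954.MW.stB1 Pool.Agent.Y141.MW.stL
  have H := adp_strings S
  have hct : ∀ p, S.ct p = 0 := by
    rintro ⟨s, i⟩
    have h1 := h0 s
    have h2 := i.2
    unfold Strings.ct
    simp only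
    omega
  have hinv : ∀ n, ((T.H (T.times X X n)).inv : ℝ) = (Fintype.card S.P : ℝ) ^ (n + 1) := by
    intro n
    rw [(adp_times hF X H n).inv_eq hB1]
    have h1 : Nat.card {g : Fin (n + 1) → S.P // ∑ k, S.ct (g k) = 0 ∨ ∑ k, S.ct (g k) = 1} =
        Nat.card (Fin (n + 1) → S.P) :=
      Nat.card_congr (Equiv.subtypeUnivEquiv (fun g => Or.inl
        (Finset.sum_eq_zero fun k _ => hct (g k))))
    refine (congrArg (Nat.cast : ℕ → ℝ) h1).trans ?_
    rw [Nat.card_eq_fintype_card, Fintype.card_fun, Fintype.card_fin]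
    push_cast
    rfl
  have hN : ∀ n, (T.H (T.times X X n)).N = 0 := by
    intro n
    obtain ⟨b, e, h, hs, hb⟩ := adp_times hF X H n
    have h1 : h = 0 := by
      apply b.ext
      intro g
      rw [hs.wt]
      have : ∑ k, S.ct (g k) = 0 := Finset.sum_eq_zero fun k _ => hct (g k)
      rw [this]
      simp
    have h2 := hs.hN
    rw [h1, zero_mul, mul_zero, sub_zero] at h2
    have h3 : (-2 : Ω) ≠ 0 := by norm_num
    exact (smul_eq_zero.1 h2.symm).resolve_left h3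
  have hI : (0 : ℝ) < Fintype.card S.P := by exact_mod_cast Fintype.card_pos_iff.2 ⟨p₀⟩
  have hid : ∀ n, (heavy (T.H (T.times X X n)) q : ℝ) / (T.H (T.times X X n)).inv =
      (1 - (Nat.card {g : Fin (n + 1) → S.P // ∑ k, S.wt (g k) = 0} : ℝ) /
        (Fintype.card S.P : ℝ) ^ (n + 1)) / 2 := by
    intro n
    have h10 := id_pow hF X n
    have h1 : finrank Ω (LinearMap.ker (T.H (T.times X X n)).N ⊓
        (T.H (T.times X X n)).tot q 1 : Submodule Ω (T.H (T.times X X n)).V) =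
        finrank Ω ((T.H (T.times X X n)).tot q 1) := by
      rw [hN, LinearMap.ker_zero, top_inf_eq]
    rw [h1] at h10
    unfold Coh.pred at h10
    have h2 := adp_finrank_tot hq (hF.pre _) (adp_times hF X H n) 0
    rw [h2] at h10
    have h11 : 2 * (heavy (T.H (T.times X X n)) q : ℝ) +
        (Nat.card {g : Fin (n + 1) → S.P // ∑ k, S.wt (g k) = 0} : ℝ) =
        (T.H (T.times X X n)).inv := by
      have h12 : 2 * heavy (T.H (T.times X X n)) q +
        Nat.card {g : Fin (n + 1) → S.P // ∑ k, S.wt (g k) = 0} =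
        (T.H (T.times X X n)).inv := by
        have h13 : 2 * heavy (T.H (T.times X X n)) q +
          Nat.card {g : Fin (n + 1) → S.P // ∑ k, S.wt (g k) = 0} +
            finrank Ω ((T.H (T.times X X n)).tot q 1) =
          (T.H (T.times X X n)).inv + finrank Ω ((T.H (T.times X X n)).tot q 1) := by
          rw [add_assoc]
          exact h10
        exact Nat.add_right_cancel h13
      exact_mod_cast h12
    have h14 := hinv n
    rw [← h14]
    have h15 : ((T.H (T.times X X n)).inv : ℝ) ≠ 0 := by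
      rw [h14]
      positivity
    field_simp
    linarith
  simp only [hid]
  have hE := Pool.Agent.Y246.MW.stE S.P S.wt ⟨p₀, hp₀⟩
  have h9 := (hE.const_sub 1).div_const 2
  rw [sub_zero] at h9
  exact h9

/-- **The law.** -/
theorem law [IsAlgClosed Ω] (hF : Facts T q) (X : T.Obj) (h : ¬ T.WeightMonodromy q X) :
    0 ≤ (T.H X).totRankMoment ∧ (T.H X).totRankMoment < (T.H X).totWeightMoment q ∧
    Tendsto (fun n : ℕ => (heavy (T.H (T.times X X n)) q : ℝ) / (T.H (T.times X X n)).inv) atTop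
      (𝓝 ((1 - √(((T.H X).totRankMoment : ℝ) / ((T.H X).totWeightMoment q : ℝ))) / 2)) := by
  have hq := hF.one_lt
  obtain ⟨S⟩ := exists_strings hq (hF.pre X)
  have hm := moment_pre hq (hF.pre X)
  have e1 : (T.H X).totRankMoment = ∑ p, S.ct p ^ 2 := Coh.totRank_eq S
  have e2 : (T.H X).totWeightMoment q = ∑ p, S.wt p ^ 2 :=
    S.weightMoment (indep_tot hq (hF.pre X))
  refine ⟨?_, lt_of_le_of_ne hm.1 fun he => h (hm.2.1 he), ?_⟩
  · rw [e1]
    exact Finset.sum_nonneg fun p _ => sq_nonneg _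
  rw [e1, e2]
  by_cases hl : ∃ s, 1 ≤ S.len s
  · obtain ⟨s₀, hs₀⟩ := hl
    exact limit_pos hF X S hs₀
  · push Not at hl
    have h0 : ∀ s, S.len s = 0 := fun s => by have := hl s; omega
    have hex : ∃ p₀ : S.P, S.wt p₀ ≠ 0 := by
      by_contra hcon
      push Not at hcon
      apply h
      refine (mw_iff hq (hF.pre X) S).2 fun s => ?_
      have h1 := hcon ⟨s, ⟨0, by omega⟩⟩
      unfold Strings.wt at h1
      simp only [Nat.cast_zero, mul_zero, sub_zero] at h1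
      rw [h1, h0 s]
      rfl
    obtain ⟨p₀, hp₀⟩ := hex
    have h2 := limit_zero hF X S h0 hp₀
    have h3 : (∑ p, S.ct p ^ 2 : ℤ) = 0 := by
      apply Finset.sum_eq_zero
      rintro ⟨s, i⟩ _
      have h1 := h0 s
      have h2 := i.2
      unfold Strings.ct
      simp only
      have : ((i : ℕ) : ℤ) = 0 := by omega
      rw [this, h1]
      simp
    rw [h3, Int.cast_zero, zero_div, Real.sqrt_zero, sub_zero]
    exact h2

end Pool.Agent.U282.RW
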