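import Pool.Agent.Y163.MW.Comb
import Pool.Agent.Y141.MW.L

/-! The kernel of the lowering operator in a given degree, for a basis of weight vectors. -/

set_option autoImplicit false

open Module

namespace Pool.Agent.U282.RW

universe u v

open Pool.Agent.Y143 Pool.Agent.Y163.MW

variable {K : Type u} [Field K] {V : Type v} [AddCommGroup V] [Module K V]
  {N : Module.End K V} {I : Type} [Fintype I] (b : Basis I K V)

/-- The projection to the span of the basis vectors with `f i = m`. -/
noncomputable def prj (f : I → ℤ) (m : ℤ) : V →ₗ[K] V :=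
  open Classical in b.constr K fun i => if f i = m then b i else 0

lemma prj_b (f : I → ℤ) (m : ℤ) (i : I) [Decidable (f i = m)] :
    prj b f m (b i) = if f i = m then b i else 0 := by
  classical
  rw [prj, Basis.constr_basis]
  split_ifs <;> rfl

lemma repr_prj (f : I → ℤ) (m : ℤ) (x : V) (i : I) [Decidable (f i = m)] :
    b.repr (prj b f m x) i = if f i = m then b.repr x i else 0 := by
  classical
  have h : (Finsupp.lapply i ∘ₗ b.repr.toLinearMap ∘ₗ prj b f m : V →ₗ[K] K) =
      if f i = m then Finsupp.lapply i ∘ₗ b.repr.toLinearMap else 0 := by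
    apply b.ext
    intro j
    simp only [LinearMap.comp_apply, LinearEquiv.coe_coe, Finsupp.lapply_apply]
    rw [prj_b]
    by_cases hj : j = i
    · subst hj
      split_ifs
      · simp
      · simp
    · split_ifs <;> simp [Finsupp.single_apply, hj]
  have h2 := LinearMap.congr_fun h x
  simp only [LinearMap.comp_apply, LinearEquiv.coe_coe, Finsupp.lapply_apply] at h2
  rw [h2]
  split_ifs <;> rfl

/-- `N` has degree `-2` for the grading given by `f`. -/
def Lowers (N : Module.End K V) (f : I → ℤ) : Prop :=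
  ∀ i k, b.repr (N (b i)) k ≠ 0 → f k = f i - 2

variable {b}

lemma prj_N {f : I → ℤ} (hf : Lowers b N f) (m : ℤ) (x : V) :
    N (prj b f m x) = prj b f (m - 2) (N x) := by
  classical
  have h : N ∘ₗ prj b f m = prj b f (m - 2) ∘ₗ N := by
    apply b.ext
    intro i
    rw [LinearMap.comp_apply, LinearMap.comp_apply]
    apply b.repr.injective
    ext k
    rw [prj_b, repr_prj]
    by_cases h0 : b.repr (N (b i)) k = 0
    · split_ifs <;> simp [h0]
    · have h1 := hf i k h0
      by_cases h2 : f i = m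
      · rw [if_pos h2, if_pos (by omega)]
      · rw [if_neg h2, if_neg (by omega)]
        simp
  exact LinearMap.congr_fun h x

lemma lowers_of_gr {gr : ℤ → Submodule K V} (hgr : iSupIndep gr)
    (hN : ∀ c, ∀ x ∈ gr c, N x ∈ gr (c - 2)) {c : I → ℤ} (hb : ∀ i, b i ∈ gr (c i)) :
    Lowers b N c := by
  intro i k hk
  have h1 := hN _ _ (hb i)
  rw [gr_eq_span hgr b c hb, b.mem_span_image] at h1
  exact h1 (Finset.mem_coe.2 (Finsupp.mem_support_iff.2 hk))

lemma repr_h {a : I → ℤ} {e h : Module.End K V} (H : IsSl2 N b a e h) (x : V) (i : I) :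
    b.repr (h x) i = (a i : K) * b.repr x i := by
  classical
  have h1 : (Finsupp.lapply i ∘ₗ b.repr.toLinearMap ∘ₗ h : V →ₗ[K] K) =
      (a i : K) • (Finsupp.lapply i ∘ₗ b.repr.toLinearMap) := by
    apply b.ext
    intro j
    simp only [LinearMap.comp_apply, LinearEquiv.coe_coe, Finsupp.lapply_apply,
      LinearMap.smul_apply, H.wt, map_smul, Basis.repr_self, smul_eq_mul]
    rw [Finsupp.single_apply]
    split_ifs with hj
    · rw [hj]
    · simp
  exact LinearMap.congr_fun h1 x

lemma support_of_h [CharZero K] {a : I → ℤ} {e h : Module.End K V} (H : IsSl2 N b a e h) {x : V}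
    {m : ℤ} (hx : h x = (m : K) • x) (i : I) (hi : b.repr x i ≠ 0) : a i = m := by
  have h1 := repr_h H x i
  rw [hx, map_smul, Finsupp.smul_apply, smul_eq_mul] at h1
  have h2 := mul_right_cancel₀ hi h1
  exact_mod_cast h2.symm

lemma h_N {a : I → ℤ} {e h : Module.End K V} (H : IsSl2 N b a e h) (x : V) :
    h (N x) = N (h x) - (2 : K) • N x := by
  have h1 := LinearMap.congr_fun H.hN x
  simp only [LinearMap.sub_apply, Module.End.mul_apply, LinearMap.smul_apply] at h1
  rw [neg_smul] at h1
  rw [sub_eq_iff_eq_add] at h1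
  rw [h1]
  abel

lemma h_Npow {a : I → ℤ} {e h : Module.End K V} (H : IsSl2 N b a e h) {x : V}
    {m : ℤ} (hx : h x = (m : K) • x) (k : ℕ) :
    h ((N ^ k) x) = ((m - 2 * k : ℤ) : K) • (N ^ k) x := by
  induction k with
  | zero => simpa using hx
  | succ k ih =>
    rw [pow_succ', Module.End.mul_apply, h_N H, ih, map_smul, ← sub_smul]
    congr 1
    push_cast
    ring

lemma lowers_of_sl2 [CharZero K] {a : I → ℤ} {e h : Module.End K V} (H : IsSl2 N b a e h) :
    Lowers b N a := by
  intro i k hk
  refine support_of_h H (m := a i - 2) ?_ k hk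
  have h1 := h_Npow H (H.wt i) 1
  rw [pow_one] at h1
  simpa using h1

lemma h_prj [CharZero K] {a : I → ℤ} {e h : Module.End K V} (H : IsSl2 N b a e h) (m : ℤ) (x : V) :
    h (prj b a m x) = (m : K) • prj b a m x := by
  classical
  apply b.repr.injective
  ext i
  rw [repr_h H, map_smul, Finsupp.smul_apply, smul_eq_mul, repr_prj]
  split_ifs with h1
  · rw [h1]
  · simp

/-- **The kernel in a given degree.** -/
theorem ker_bound [CharZero K] {gr : ℤ → Submodule K V} (hgr : iSupIndep gr)
    (hN : ∀ c, ∀ x ∈ gr c, N x ∈ gr (c - 2)) {a c : I → ℤ} (hb : ∀ i, b i ∈ gr (c i))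
    {e h : Module.End K V} (H : IsSl2 N b a e h) (t : ℤ) :
    finrank K (LinearMap.ker N ⊓ gr t : Submodule K V) +
      Nat.card {i : I // c i = t - 2 ∧ a i ≤ -2} ≤ Nat.card {i : I // c i = t ∧ a i ≤ 0} := by
  classical
  have hfin : Module.Finite K V := Module.Finite.of_basis b
  have hL := Pool.Agent.Y141.MW.stL K V N I b a e h H
  have hc := lowers_of_gr hgr hN hb
  have ha := lowers_of_sl2 H
  set U := Submodule.span K (b '' {i | c i = t ∧ a i ≤ 0}) with hU
  set U' := Submodule.span K (b '' {i | c i = t - 2 ∧ a i ≤ -2}) with hU'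
  have h1 : LinearMap.ker N ⊓ gr t ≤ U := by
    intro x hx
    obtain ⟨hx1, hx2⟩ := Submodule.mem_inf.1 hx
    rw [LinearMap.mem_ker] at hx1
    rw [gr_eq_span hgr b c hb, b.mem_span_image] at hx2
    rw [hU, b.mem_span_image]
    intro i hi
    refine ⟨hx2 hi, ?_⟩
    by_contra hcon
    push Not at hcon
    have h2 : (N ^ (a i).toNat) (prj b a (a i) x) = 0 := by
      obtain ⟨k, hk⟩ : ∃ k : ℕ, (a i).toNat = k + 1 := ⟨(a i).toNat - 1, by omega⟩
      rw [hk, pow_succ, Module.End.mul_apply, prj_N ha, hx1, map_zero, map_zero]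
    have h3 : h (prj b a (a i) x) = (((a i).toNat : ℕ) : K) • prj b a (a i) x := by
      rw [h_prj H]
      congr 1
      have : ((a i).toNat : ℤ) = a i := Int.toNat_of_nonneg hcon.le
      exact_mod_cast congrArg (Int.cast : ℤ → K) this.symm
    have h4 := (hL (a i).toNat).1 _ h3 h2
    have h5 := repr_prj b a (a i) x i
    rw [h4, map_zero, Finsupp.coe_zero, Pi.zero_apply, if_pos rfl] at h5
    exact (Finsupp.mem_support_iff.1 (Finset.mem_coe.1 hi)) h5.symm
  have h2 : U' ≤ U.map N := by
    rw [hU', Submodule.span_le]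
    rintro _ ⟨i, ⟨hi1, hi2⟩, rfl⟩
    obtain ⟨m, hm⟩ : ∃ m : ℕ, a i = -((m + 2 : ℕ) : ℤ) := ⟨(-a i - 2).toNat, by omega⟩
    have h3 : h (b i) = (-((m + 2 : ℕ) : K)) • b i := by
      rw [H.wt, hm]
      push_cast
      rfl
    obtain ⟨x, hx1, hx2⟩ := (hL (m + 2)).2 _ h3
    set z := (N ^ (m + 1)) x with hz
    have hz1 : N z = b i := by
      rw [hz, ← Module.End.mul_apply, ← pow_succ']
      exact hx2
    have hz2 : h z = ((-(m : ℤ) : ℤ) : K) • z := by
      have h4 : h x = ((((m + 2 : ℕ) : ℤ)) : K) • x := by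
        rw [hx1]
        push_cast
        rfl
      have h5 := h_Npow H h4 (m + 1)
      rw [← hz] at h5
      rw [h5]
      congr 2
      push_cast
      ring
    refine ⟨prj b c t z, ?_, ?_⟩
    · show prj b c t z ∈ U
      rw [hU, b.mem_span_image]
      intro k hk
      have h6 := Finsupp.mem_support_iff.1 (Finset.mem_coe.1 hk)
      rw [repr_prj] at h6
      split_ifs at h6 with h7
      · have h8 := support_of_h H hz2 k h6
        exact ⟨h7, by omega⟩
      · exact absurd rfl h6
    · rw [prj_N hc, hz1, prj_b, if_pos hi1]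
  have h3 : finrank K (LinearMap.ker N ⊓ gr t : Submodule K V) ≤
      finrank K (LinearMap.ker (N.domRestrict U)) := by
    have h6 : (LinearMap.ker N ⊓ gr t : Submodule K V) ≤
        (LinearMap.ker (N.domRestrict U)).map U.subtype := by
      intro x hx
      exact ⟨⟨x, h1 hx⟩, (Submodule.mem_inf.1 hx).1, rfl⟩
    refine (Submodule.finrank_mono h6).trans (le_of_eq ?_)
    exact ((Submodule.equivMapOfInjective _ (Submodule.injective_subtype _) _).finrank_eq).symm
  have h4 : finrank K U' ≤ finrank K (LinearMap.range (N.domRestrict U)) := by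
    apply Submodule.finrank_mono
    refine h2.trans (le_of_eq ?_)
    ext y
    constructor
    · rintro ⟨x, hx, rfl⟩
      exact ⟨⟨x, hx⟩, rfl⟩
    · rintro ⟨x, rfl⟩
      exact ⟨x.1, x.2, rfl⟩
  have h5 := LinearMap.finrank_range_add_finrank_ker (N.domRestrict U)
  have e1 : finrank K U = Nat.card {i : I // c i = t ∧ a i ≤ 0} := finrank_span_image b _
  have e2 : finrank K U' = Nat.card {i : I // c i = t - 2 ∧ a i ≤ -2} := finrank_span_image b _
  omega

end Pool.Agent.U282.RW
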