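import Pool.Agent.U282.RW.Wrd
import Pool.Agent.U282.RW.Sl
import Pool.Agent.U644.RA.Main

/-! The weights of the inertia invariants of the powers of a variety. -/

set_option autoImplicit false

open Module TensorProduct Filter Topology

namespace Pool.Agent.U282.RW

universe u v w

open Pool.Agent.Y143 Pool.Agent.Y136.UB Pool.Agent.Y163.MW Pool.Agent.U644.LT Pool.Agent.U644.RA
open Pool.Agent.Y163.MW.Coh (adp_strings exists_len kunneth_tot)
open Pool.Agent.U644.MW (P InvariantsBounded)

section coh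

variable {Ω : Type w} [Field Ω] [CharZero Ω] {R R' R'' : Coh.{v, w} Ω} {q : ℕ}

/-- `B(N x, y) = -B(x, N y)`. -/
def Skew {V : Type v} [AddCommGroup V] [Module Ω V] (B : V →ₗ[Ω] V →ₗ[Ω] Ω) (N : Module.End Ω V) :
    Prop := ∀ x y, val B (N x) y = -val B x (N y)

/-- The number of the eigenvalues (with multiplicities) of `F` on the parts of the kernel of `N` in
the `H^m` whose weight is more than `m`. -/
noncomputable def heavy (R : Coh.{v, w} Ω) (q : ℕ) : ℕ :=
  finrank Ω (LinearMap.ker R.N ⊓ ⨆ (c : ℤ) (_ : 0 < c), R.tot q c : Submodule Ω R.V)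

lemma dual_of (hq : 1 < q) {d : ℕ} {B : R.V →ₗ[Ω] R.V →ₗ[Ω] Ω}
    (hB : IsPoincare q d R.gr R.F B) (hs : Skew B R.N) : Dual (R.tot q) R.N B where
  nondeg := hB.nondeg
  skew := hs
  orth := by
    intro c c' x y hx hy hcc
    have hB1 : ∀ m m' x y, x ∈ R.gr m → y ∈ R.gr m' → m + m' ≠ 2 * d → B x y = 0 := hB.orth
    have hB2 : ∀ x y, B (R.F x) (R.F y) = (q : Ω) ^ d * B x y := hB.frob
    have h1 : R.tot q c' ≤ LinearMap.ker (B x) := by
      refine iSup_le fun m' => iSup₂_le fun β hβ y hy => ?_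
      rw [LinearMap.mem_ker]
      have h2 : R.tot q c ≤ LinearMap.ker (B.flip y) := by
        refine iSup_le fun m => iSup₂_le fun α hα z hz => ?_
        rw [LinearMap.mem_ker, LinearMap.flip_apply]
        by_cases hm : m + m' = 2 * d
        · refine Pool.Agent.Y163.MW.gen_orth (S := ⊤) (fun _ _ => Submodule.mem_top)
            (fun x y _ _ => hB2 x y) ?_ Submodule.mem_top
            Submodule.mem_top (Submodule.mem_inf.1 hz).2
            (Submodule.mem_inf.1 hy).2
          intro h5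
          have h6 := weil_mul (by omega) hα hβ
          rw [h5] at h6
          have h7 := weil_unique hq h6 (weil_natPow (by omega) d)
          omega
        · exact hB1 m m' z y (Submodule.mem_inf.1 hz).1 (Submodule.mem_inf.1 hy).1 hm
      exact LinearMap.mem_ker.1 (h2 hx)
    exact LinearMap.mem_ker.1 (h1 hy)

/-- **The identity.** -/
theorem identity_coh [IsAlgClosed Ω] (hq : 1 < q) (hR : IsPre R q) {d : ℕ}
    {B : R.V →ₗ[Ω] R.V →ₗ[Ω] Ω} (hB : IsPoincare q d R.gr R.F B) (hs : Skew B R.N) :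
    2 * heavy R q + R.pred q = R.inv +
      finrank Ω (LinearMap.ker R.N ⊓ R.tot q 1 : Submodule Ω R.V) := by
  have := hR.finite
  obtain ⟨S⟩ := exists_strings hq hR
  have hind := indep_tot hq hR
  have h1 := identity hind S (dual_of hq hB hs)
  rw [← finrank_ker hind S, ← finrank_ker hind S, ← finrank_ker_all S] at h1
  have h2 : (⨆ c ∈ ({1} : Set ℤ), R.tot q c) = R.tot q 1 := by
    simp only [Set.mem_singleton_iff, iSup_iSup_eq_left]
  rw [h2] at h1
  rw [adp_pred_eq hq hR (adp_strings S)]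
  exact h1

lemma heavy_eq_zero [IsAlgClosed Ω] (hq : 1 < q) (hR : IsPre R q) (h : P R q 0) :
    heavy R q = 0 := by
  have := hR.finite
  obtain ⟨S⟩ := exists_strings hq hR
  have hind := indep_tot hq hR
  have h1 := finrank_ker hind S {c : ℤ | 0 < c}
  have h2 : heavy R q = Nat.card {s : S.ι // bot S s ∈ {c : ℤ | 0 < c}} := h1
  rw [h2]
  have : IsEmpty {s : S.ι // bot S s ∈ {c : ℤ | 0 < c}} := by
    constructor
    rintro ⟨s, hs⟩
    have h3 : (0 : ℤ) < bot S s := hs
    have h4 : S.b ⟨s, Fin.last _⟩ ∈ R.tot q (bot S s) := by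
      have h5 := S.mem s (Fin.last _)
      rw [Fin.val_last] at h5
      exact h5
    have h6 := h (bot S s) (by push_cast; exact h3) _ h4 (by rw [zero_add, pow_one]; exact S.last s)
    exact S.b.ne_zero _ h6
  exact Nat.card_of_isEmpty

lemma kerOne_le (h : heavy R q = 0) [Module.Finite Ω R.V] :
    finrank Ω (LinearMap.ker R.N ⊓ R.tot q 1 : Submodule Ω R.V) = 0 := by
  have h1 : (LinearMap.ker R.N ⊓ R.tot q 1 : Submodule Ω R.V) ≤
      LinearMap.ker R.N ⊓ ⨆ (c : ℤ) (_ : 0 < c), R.tot q c :=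
    inf_le_inf_left _ (le_iSup₂_of_le (f := fun c (_ : 0 < c) => R.tot q c) 1 one_pos le_rfl)
  have h2 := Submodule.finrank_mono h1
  unfold heavy at h
  omega

end coh

section theory

variable {Ω : Type w} [Field Ω] [CharZero Ω] (T : RigidTheory.{u, v, w} Ω) (q : ℕ)

/-- Poincaré duality for `X`, compatible with `N`. -/
def Duality (X : T.Obj) : Prop :=
  ∃ B, IsPoincare q (T.dim X) (T.H X).gr (T.H X).F B ∧ Skew B (T.H X).N

/-- The known facts. -/
structure Facts : Prop where
  one_lt : 1 < q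
  pre : ∀ X, IsPre (T.H X) q
  duality : ∀ X, Duality T q X
  kunneth : ∀ X Y, T.Kunneth X Y

variable {T q}

/-- Adapted bases for all the powers. -/
theorem adp_times (hF : Facts T q) (X : T.Obj) {I : Type} {a c : I → ℤ}
    (H : (T.H X).Adp q a c) (n : ℕ) :
    (T.H (T.times X X n)).Adp q (fun g : Fin (n + 1) → I => ∑ k, a (g k))
      (fun g : Fin (n + 1) → I => ∑ k, c (g k)) := by
  induction n with
  | zero =>
    have H' : (T.H (T.times X X 0)).Adp q a c := H
    refine H'.reindex (Equiv.funUnique (Fin 1) I).symm _ _ (fun g => ?_) (fun g => ?_)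
    · simp
    · simp
  | succ n ih =>
    obtain ⟨κ, hκ⟩ := hF.kunneth (T.times X X n) X
    have H' : (T.H (T.times X X (n + 1))).Adp q
        (fun p : (Fin (n + 1) → I) × I => ∑ k, a (p.1 k) + a p.2)
        (fun p : (Fin (n + 1) → I) × I => ∑ k, c (p.1 k) + c p.2) :=
      ih.prod H (by have := hF.one_lt; omega) hκ
    refine H'.reindex ((Equiv.prodComm _ _).trans (Fin.snocEquiv (fun _ => I))) _ _
      (fun g => ?_) (fun g => ?_)
    · rw [Fin.sum_univ_castSucc]
      rfl
    · rw [Fin.sum_univ_castSucc]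
      rfl

theorem moment_pre [IsAlgClosed Ω] {R : Coh.{v, w} Ω} (hq : 1 < q) (hR : IsPre R q) :
    R.totRankMoment ≤ R.totWeightMoment q ∧
      (R.totRankMoment = R.totWeightMoment q ↔ ∀ m, R.MWPure q m) := by
  have := hR.finite
  have h := moment (isInternal_tot hq hR) (N_tot hq hR)
  rw [centred_tot_iff hq hR, ← Coh.rankSum_top] at h
  exact h

/-- The criterion on `X × X`. -/
theorem square (hF : Facts T q) [IsAlgClosed Ω] (X : T.Obj) :
    T.WeightMonodromy q X ↔ T.Bounded q (T.prod X X) := by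
  have hq := hF.one_lt
  have hB1 : StB1.{w, v} := Pool.Agent.Y954.MW.stB1 Pool.Agent.Y141.MW.stL
  obtain ⟨S⟩ := exists_strings hq (hF.pre X)
  obtain ⟨κ, hκ⟩ := hF.kunneth X X
  have H := (adp_strings S).prod (adp_strings S) (by omega) hκ
  obtain ⟨B, hB, hs⟩ := hF.duality (T.prod X X)
  have hfin := (hF.pre (T.prod X X)).finite
  unfold RigidTheory.WeightMonodromy RigidTheory.Bounded
  rw [bounded_iff hq (hF.pre _), mw_iff hq (hF.pre X) S]
  constructor
  · intro h
    have h1 : S.ct = S.wt := by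
      funext p
      unfold Strings.ct Strings.wt
      rw [h p.1]
    refine P_zero_of_inv_eq hq (hF.pre _) ⟨_, B, hB⟩ ?_
    rw [H.inv_eq hB1, adp_pred_eq hq (hF.pre _) H, h1]
  · intro h
    have h1 := heavy_eq_zero hq (hF.pre _) h
    have h2 := kerOne_le h1
    have h3 := identity_coh hq (hF.pre _) hB hs
    rw [h1, h2, H.inv_eq hB1, adp_pred_eq hq (hF.pre _) H, mul_zero, zero_add, add_zero] at h3
    exact fun s => S.pairs h3 s

/-- No eigenvalue of the powers is too heavy if the conjecture holds for `X`. -/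
theorem none_heavy (hF : Facts T q) [IsAlgClosed Ω] (X : T.Obj) (h : T.WeightMonodromy q X)
    (n : ℕ) : heavy (T.H (T.times X X n)) q = 0 := by
  have hq := hF.one_lt
  have hB1 : StB1.{w, v} := Pool.Agent.Y954.MW.stB1 Pool.Agent.Y141.MW.stL
  obtain ⟨S⟩ := exists_strings hq (hF.pre X)
  have H := adp_times hF X (adp_strings S) n
  obtain ⟨B, hB, hs⟩ := hF.duality (T.times X X n)
  apply heavy_eq_zero hq (hF.pre _)
  refine P_zero_of_inv_eq hq (hF.pre _) ⟨_, B, hB⟩ ?_
  have h0 := (mw_iff hq (hF.pre X) S).1 h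
  have h1 : S.ct = S.wt := by
    funext p
    unfold Strings.ct Strings.wt
    rw [h0 p.1]
  rw [H.inv_eq hB1, adp_pred_eq hq (hF.pre _) H, h1]

end theory

end Pool.Agent.U282.RW
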