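import Pool.Agent.Y163.MW.Comb

/-! Strings: the kernel of `N`, duality, and the identity for the dimensions of its parts. -/

set_option autoImplicit false

open Module

namespace Pool.Agent.U282.RW

universe u v

open Pool.Agent.Y143 Pool.Agent.Y163.MW

variable {K : Type u} [Field K] {V : Type v} [AddCommGroup V] [Module K V]
  {gr : ℤ → Submodule K V} {N : Module.End K V}

/-- The degree of the last vector of a string. -/
def bot (S : Strings gr N) (s : S.ι) : ℤ := S.top s - 2 * (S.len s : ℤ)

lemma repr_N (S : Strings gr N) (x : V) (s : S.ι)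
    (i : Fin (S.len s)) : S.b.repr (N x) ⟨s, i.succ⟩ = S.b.repr x ⟨s, i.castSucc⟩ := by
  classical
  have h : (Finsupp.lapply ⟨s, i.succ⟩ ∘ₗ S.b.repr.toLinearMap ∘ₗ N : V →ₗ[K] K) =
      Finsupp.lapply ⟨s, i.castSucc⟩ ∘ₗ S.b.repr.toLinearMap := by
    apply S.b.ext
    rintro ⟨t, j⟩
    simp only [LinearMap.comp_apply, LinearEquiv.coe_coe, Finsupp.lapply_apply,
      Basis.repr_self]
    refine Fin.lastCases ?_ (fun j => ?_) j
    · rw [S.last, map_zero, Finsupp.coe_zero, Pi.zero_apply, Finsupp.single_apply, if_neg]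
      intro heq
      obtain ⟨rfl, h2⟩ := Sigma.mk.inj_iff.1 heq
      have h3 := congrArg Fin.val (eq_of_heq h2)
      rw [Fin.val_last, Fin.val_castSucc] at h3
      have := i.2
      omega
    · rw [S.succ, Basis.repr_self, Finsupp.single_apply, Finsupp.single_apply]
      congr 1
      apply propext
      constructor
      · intro heq
        obtain ⟨rfl, h2⟩ := Sigma.mk.inj_iff.1 heq
        rw [Fin.succ_inj.1 (eq_of_heq h2)]
      · intro heq
        obtain ⟨rfl, h2⟩ := Sigma.mk.inj_iff.1 heq
        rw [Fin.castSucc_injective _ (eq_of_heq h2)]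
  exact LinearMap.congr_fun h x

lemma ker_eq (S : Strings gr N) :
    LinearMap.ker N = Submodule.span K (S.b '' {p | (p.2 : ℕ) = S.len p.1}) := by
  apply le_antisymm
  · intro x hx
    rw [LinearMap.mem_ker] at hx
    rw [S.b.mem_span_image]
    rintro ⟨s, i⟩ hp
    by_contra hcon
    have h1 : (i : ℕ) < S.len s := by
      have h2 := i.2
      have h3 : (i : ℕ) ≠ S.len s := hcon
      omega
    have h4 := repr_N S x s ⟨i, h1⟩
    rw [hx, map_zero, Finsupp.coe_zero, Pi.zero_apply] at h4
    exact (Finsupp.mem_support_iff.1 (Finset.mem_coe.1 hp)) h4.symm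
  · rw [Submodule.span_le]
    rintro _ ⟨⟨s, i⟩, hp, rfl⟩
    have h1 : i = Fin.last (S.len s) := Fin.ext hp
    rw [h1]
    exact LinearMap.mem_ker.2 (S.last s)

lemma iSup_eq (hgr : iSupIndep gr) (S : Strings gr N) (C : Set ℤ) :
    (⨆ c ∈ C, gr c) = Submodule.span K (S.b '' {p | S.wt p ∈ C}) := by
  apply le_antisymm
  · refine iSup₂_le fun c hc => ?_
    rw [gr_eq_span hgr S.b S.wt S.mem' c]
    apply Submodule.span_mono
    apply Set.image_mono
    intro p hp
    have h1 : S.wt p = c := hp
    show S.wt p ∈ C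
    rw [h1]
    exact hc
  · rw [Submodule.span_le]
    rintro _ ⟨p, hp, rfl⟩
    exact (le_iSup₂_of_le (f := fun c (_ : c ∈ C) => gr c) (S.wt p) hp le_rfl) (S.mem' p)

lemma finrank_ker (hgr : iSupIndep gr) (S : Strings gr N) (C : Set ℤ) :
    finrank K (LinearMap.ker N ⊓ ⨆ c ∈ C, gr c : Submodule K V) =
      Nat.card {s : S.ι // bot S s ∈ C} := by
  rw [ker_eq S, iSup_eq hgr S C, span_image_inf, finrank_span_image]
  refine Nat.card_congr
    { toFun := fun p => ⟨p.1.1, ?_⟩
      invFun := fun s => ⟨⟨s.1, Fin.last _⟩, ?_⟩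
      left_inv := ?_
      right_inv := ?_ }
  · have h1 : ((p.1.2 : Fin _) : ℕ) = S.len p.1.1 := p.2.1
    have h2 : S.wt p.1 ∈ C := p.2.2
    unfold Strings.wt at h2
    rw [h1] at h2
    exact h2
  · refine ⟨Fin.val_last _, ?_⟩
    have h2 := s.2
    show S.wt ⟨s.1, Fin.last _⟩ ∈ C
    unfold Strings.wt
    rw [Fin.val_last]
    exact h2
  · rintro ⟨⟨s, i⟩, hp, hq⟩
    have h1 : i = Fin.last (S.len s) := Fin.ext hp
    subst h1
    rfl
  · intro s
    rfl

lemma finrank_ker_all (S : Strings gr N) : finrank K (LinearMap.ker N) = Nat.card S.ι := by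
  rw [ker_eq S, finrank_span_image]
  refine Nat.card_congr
    { toFun := fun p => p.1.1
      invFun := fun s => ⟨⟨s, Fin.last _⟩, Fin.val_last _⟩
      left_inv := ?_
      right_inv := fun s => rfl }
  rintro ⟨⟨s, i⟩, hp⟩
  have h1 : i = Fin.last (S.len s) := Fin.ext hp
  subst h1
  rfl

/-- `B` is nondegenerate, `gr c` and `gr c'` are orthogonal unless `c + c' = 0`, and `N` is skew. -/
structure Dual (gr : ℤ → Submodule K V) (N : Module.End K V) (B : V →ₗ[K] V →ₗ[K] K) : Prop where
  nondeg : ∀ x, (∀ y, B x y = 0) → x = 0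
  orth : ∀ c c' x y, x ∈ gr c → y ∈ gr c' → c + c' ≠ 0 → B x y = 0
  skew : ∀ x y, B (N x) y = -B x (N y)

lemma bot_le_top [Module.Finite K V] (hgr : iSupIndep gr) (S : Strings gr N)
    {B : V →ₗ[K] V →ₗ[K] K} (hB : Dual gr N B) (C : Set ℤ) :
    Nat.card {s : S.ι // bot S s ∈ C} ≤ Nat.card {s : S.ι // -S.top s ∈ C} := by
  classical
  rw [← finrank_ker hgr S C]
  set A : Submodule K V := LinearMap.ker N ⊓ ⨆ c ∈ C, gr c with hA
  let Φ : A →ₗ[K] ({s : S.ι // -S.top s ∈ C} → K) :=
    { toFun := fun x s => B x (S.b ⟨s.1, 0⟩)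
      map_add' := fun x y => by
        funext s
        simp
      map_smul' := fun a x => by
        funext s
        simp }
  have hΦ : Function.Injective Φ := by
    rw [← LinearMap.ker_eq_bot, LinearMap.ker_eq_bot']
    intro x hx
    apply Subtype.ext
    apply hB.nondeg
    have hxk : N x = 0 := LinearMap.mem_ker.1 (Submodule.mem_inf.1 x.2).1
    have key : B (x : V) = 0 := by
      apply S.b.ext
      rintro ⟨s, i⟩
      rw [LinearMap.zero_apply]
      refine Fin.cases ?_ (fun j => ?_) i
      · by_cases hs : -S.top s ∈ C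
        · exact congrFun hx ⟨s, hs⟩
        · have h1 : (⨆ c ∈ C, gr c) ≤ LinearMap.ker (B.flip (S.b ⟨s, 0⟩)) := by
            refine iSup₂_le fun c hc z hz => ?_
            rw [LinearMap.mem_ker, LinearMap.flip_apply]
            refine hB.orth c (S.top s) z _ hz ?_ ?_
            · have := S.mem s 0
              simpa using this
            · intro h0
              apply hs
              rw [show -S.top s = c by omega]
              exact hc
          exact LinearMap.mem_ker.1 (h1 (Submodule.mem_inf.1 x.2).2)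
      · rw [← S.succ s j]
        have h2 := hB.skew (x : V) (S.b ⟨s, j.castSucc⟩)
        rw [hxk, map_zero, LinearMap.zero_apply] at h2
        exact neg_eq_zero.1 h2.symm
    intro y
    rw [key, LinearMap.zero_apply]
  have h3 := LinearMap.finrank_le_finrank_of_injective hΦ
  rw [Module.finrank_fintype_fun_eq_card] at h3
  rwa [Nat.card_eq_fintype_card]

lemma bot_eq_top [Module.Finite K V] (hgr : iSupIndep gr) (S : Strings gr N)
    {B : V →ₗ[K] V →ₗ[K] K} (hB : Dual gr N B) (C : Set ℤ) :
    Nat.card {s : S.ι // bot S s ∈ C} = Nat.card {s : S.ι // -S.top s ∈ C} := by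
  classical
  have h1 := bot_le_top hgr S hB C
  have h2 := bot_le_top hgr S hB Cᶜ
  have key : ∀ f : S.ι → ℤ, Nat.card {s : S.ι // f s ∈ C} + Nat.card {s : S.ι // f s ∈ Cᶜ} =
      Nat.card S.ι := by
    intro f
    rw [Nat.card_eq_fintype_card, Nat.card_eq_fintype_card, Nat.card_eq_fintype_card,
      Fintype.card_subtype, Fintype.card_subtype]
    simp only [Set.mem_compl_iff]
    rw [Finset.card_filter_add_card_filter_not, Finset.card_univ]
  have h3 := key (bot S)
  have h4 := key (fun s => -S.top s)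
  omega

/-- The number of the basis vectors of weights `0` and `1`. -/
lemma card_mid (S : Strings gr N) : Nat.card {p : S.P // S.wt p = 0 ∨ S.wt p = 1} =
    Nat.card {s : S.ι // bot S s ≤ 1 ∧ 0 ≤ S.top s} := by
  refine Nat.card_congr
    { toFun := fun p => ⟨p.1.1, ?_⟩
      invFun := fun s => ⟨⟨s.1, ⟨(S.top s.1 / 2).toNat, ?_⟩⟩, ?_⟩
      left_inv := ?_
      right_inv := fun s => rfl }
  · have h1 := p.2
    have h2 := p.1.2.2
    unfold Strings.wt at h1
    unfold bot
    omega
  · have h1 := s.2
    unfold bot at h1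
    omega
  · have h1 := s.2
    unfold bot at h1
    unfold Strings.wt
    simp only
    omega
  · rintro ⟨⟨s, i⟩, hp⟩
    unfold Strings.wt at hp
    simp only at hp
    have h2 : (S.top s / 2).toNat = (i : ℕ) := by omega
    apply Subtype.ext
    simp only
    congr 1
    exact Fin.ext h2

/-- **The identity.** -/
theorem identity [Module.Finite K V] (hgr : iSupIndep gr) (S : Strings gr N)
    {B : V →ₗ[K] V →ₗ[K] K} (hB : Dual gr N B) :
    2 * Nat.card {s : S.ι // bot S s ∈ {c : ℤ | 0 < c}} +
      Nat.card {p : S.P // S.wt p = 0 ∨ S.wt p = 1} =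
    Nat.card S.ι + Nat.card {s : S.ι // bot S s ∈ ({1} : Set ℤ)} := by
  classical
  have hd := bot_eq_top hgr S hB {c : ℤ | 0 < c}
  rw [card_mid S]
  have hbt : ∀ s, bot S s ≤ S.top s := fun s => by unfold bot; omega
  have e1 : Nat.card {s : S.ι // bot S s ∈ {c : ℤ | 0 < c}} =
      Nat.card {s : S.ι // bot S s ∈ ({1} : Set ℤ)} + Nat.card {s : S.ι // 2 ≤ bot S s} := by
    rw [Nat.card_eq_fintype_card, Nat.card_eq_fintype_card, Nat.card_eq_fintype_card,
      Fintype.card_subtype, Fintype.card_subtype, Fintype.card_subtype,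
      ← Finset.card_union_of_disjoint]
    · congr 1
      ext s
      simp only [Finset.mem_filter, Finset.mem_univ, true_and, Finset.mem_union, Set.mem_ofPred_eq,
        Set.mem_singleton_iff]
      omega
    · rw [Finset.disjoint_filter]
      intro s _ h0 h1
      rw [Set.mem_singleton_iff] at h0
      omega
  have e2 : Nat.card S.ι = Nat.card {s : S.ι // bot S s ≤ 1 ∧ 0 ≤ S.top s} +
      (Nat.card {s : S.ι // 2 ≤ bot S s} +
        Nat.card {s : S.ι // -S.top s ∈ {c : ℤ | 0 < c}}) := by
    rw [Nat.card_eq_fintype_card, Nat.card_eq_fintype_card, Nat.card_eq_fintype_card,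
      Nat.card_eq_fintype_card,
      Fintype.card_subtype, Fintype.card_subtype, Fintype.card_subtype,
      ← Finset.card_union_of_disjoint, ← Finset.card_union_of_disjoint, ← Finset.card_univ]
    · congr 1
      ext s
      have := hbt s
      simp only [Finset.mem_filter, Finset.mem_univ, true_and, Finset.mem_union, Set.mem_ofPred_eq,
        true_iff]
      omega
    · rw [Finset.disjoint_left]
      intro s h0 h1
      simp only [Finset.mem_filter, Finset.mem_univ, true_and, Finset.mem_union,
        Set.mem_ofPred_eq] at h0 h1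
      omega
    · rw [Finset.disjoint_filter]
      intro s _ h0 h1
      have := hbt s
      rw [Set.mem_ofPred_eq] at h1
      omega
  omega

end Pool.Agent.U282.RW
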