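import Pool.Agent.U282.RW.Str
import Pool.Agent.U282.RW.Cnt

/-! Words in the basis vectors of strings. -/

set_option autoImplicit false

open Module

namespace Pool.Agent.U282.RW

universe u v

open Pool.Agent.Y143 Pool.Agent.Y163.MW Pool.Agent.U282.PW

variable {K : Type u} [Field K] {V : Type v} [AddCommGroup V] [Module K V]
  {gr : ℤ → Submodule K V} {N : Module.End K V} (S : Strings gr N)

/-- The centre of a tuple of strings. -/
def cz {n : ℕ} (j : Fin n → S.ι) : ℤ := ∑ k, (S.top (j k) - S.len (j k))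

open Classical in
theorem card_words (n : ℕ) (t r : ℤ) :
    Nat.card {g : Fin n → S.P // ∑ k, S.wt (g k) = t ∧ ∑ k, S.ct (g k) ≤ r} =
      ∑ j : Fin n → S.ι, if t - cz S j ≤ r then
        num (fun i => S.len (j i) + 1) (t - cz S j) else 0 := by
  rw [Nat.card_eq_fintype_card, Fintype.card_subtype, Finset.card_eq_sum_ones,
    Finset.sum_filter]
  rw [← Equiv.sum_comp (pse n (fun s : S.ι => S.len s + 1)).symm, Fintype.sum_sigma]
  apply Finset.sum_congr rfl
  intro j _
  have hct : ∀ a : ∀ i, Fin (S.len (j i) + 1),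
      ∑ k, S.ct ((pse n (fun s : S.ι => S.len s + 1)).symm ⟨j, a⟩ k) =
        hh (fun i => S.len (j i) + 1) a := by
    intro a
    rw [hh]
    apply Finset.sum_congr rfl
    intro k _
    show (S.len (j k) : ℤ) - 2 * ((a k : ℕ) : ℤ) = _
    push_cast
    ring
  have hwt : ∀ a : ∀ i, Fin (S.len (j i) + 1),
      ∑ k, S.wt ((pse n (fun s : S.ι => S.len s + 1)).symm ⟨j, a⟩ k) =
        hh (fun i => S.len (j i) + 1) a + cz S j := by
    intro a
    rw [hh, cz, ← Finset.sum_add_distrib]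
    apply Finset.sum_congr rfl
    intro k _
    show S.top (j k) - 2 * ((a k : ℕ) : ℤ) = _
    push_cast
    ring
  have h1 : ∀ a : ∀ i, Fin (S.len (j i) + 1),
      (∑ k, S.wt ((pse n (fun s : S.ι => S.len s + 1)).symm ⟨j, a⟩ k) = t ∧
        ∑ k, S.ct ((pse n (fun s : S.ι => S.len s + 1)).symm ⟨j, a⟩ k) ≤ r) ↔
      (t - cz S j ≤ r ∧ hh (fun i => S.len (j i) + 1) a = t - cz S j) := by
    intro a
    rw [hct, hwt]
    omega
  simp only [h1]
  by_cases hP : t - cz S j ≤ r
  · rw [if_pos hP, num, Nat.card_eq_fintype_card, Fintype.card_subtype, Finset.card_eq_sum_ones,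
      Finset.sum_filter]
    apply Finset.sum_congr rfl
    intro a _
    simp only [hP, true_and]
  · rw [if_neg hP]
    apply Finset.sum_eq_zero
    intro a _
    rw [if_neg]
    exact fun h => hP h.1

theorem kappa_le (n : ℕ) {s₀ : S.ι} (hs : 1 ≤ S.len s₀) :
    (Nat.card {g : Fin n → S.P // ∑ k, S.wt (g k) = 1 ∧ ∑ k, S.ct (g k) ≤ 0} : ℝ) ≤
      Nat.card {g : Fin n → S.P // ∑ k, S.wt (g k) = 1 - 2 ∧ ∑ k, S.ct (g k) ≤ -2} +
        (1 / Real.pi) * (2 * (Fintype.card S.P : ℝ) ^ (n + 1) / (n + 1)) := by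
  classical
  rw [card_words, card_words]
  have h := total_bound (s := fun s : S.ι => S.len s + 1) (fun _ => Nat.succ_pos _) (j₀ := s₀)
    (by omega) n (fun j => 1 - cz S j ≤ 0) (fun j => 1 - cz S j)
  have hb : Fintype.card S.P = ∑ s : S.ι, (S.len s + 1) := by
    rw [Fintype.card_sigma]
    simp
  rw [hb]
  push_cast at h ⊢
  refine h.trans (le_of_eq ?_)
  congr 1
  apply Finset.sum_congr rfl
  intro j _
  by_cases hj : 1 - cz S j ≤ 0
  · rw [if_pos hj, if_pos (by omega)]
    congr 2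
    ring
  · rw [if_neg hj, if_neg (by omega)]

end Pool.Agent.U282.RW
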